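import Pool.Agent.H.MP_01c081_pr.C

set_option autoImplicit false

namespace Pool.Agent.Results.MP_01c081_pr.Yes

open Pool.Agent.H.MP_01c081_pr MeasureTheory
open scoped ENNReal NNReal

/-- The tail condition (T). -/
def CondT (P : Measure (ℤ × ℤ → Bool)) : Prop :=
  ∃ C : ℝ≥0, 0 < C ∧ ∀ e : ℤ × ℤ, e = (1, 0) ∨ e = (0, 1) → ∀ N : ℕ, 1 ≤ N →
    ∑' k : ℕ, (if N ≤ k then k * P {ω | gap e ω = k} / ∫⁻ ω, gap e ω ∂P else 0) ≤ (C : ℝ≥0∞) / N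

theorem result : ∃ Q, DPP Q ∧ Q {ω | ω 0 = true} ≠ 0 ∧
    (∀ᵐ ω ∂Palm Q, Full ω ∧ ∀ᵐ ξ ∂Xi, ∃ n, walk (nbr ω) 0 ξ (n + 1) = 0) ∧ ¬ CondT (Palm Q) := by
  refine ⟨QQ nR, dpp nR_n, Q0 nR_n, (palm nR_n).mono fun ω h => ⟨full nR_n h.1, recur' h.1 h.2⟩, ?_⟩
  rintro ⟨C, -, hC⟩
  obtain ⟨E, hE⟩ : ∃ E : ℝ≥0, ∫⁻ ω, gap (1, 0) ω ∂Palm (QQ nR) = E :=
    ⟨_, (ENNReal.coe_toNNReal (E_fin nR_n)).symm⟩
  obtain ⟨j, hj⟩ := pow_unbounded_of_one_lt (2 * (C * E)) (one_lt_two : (1 : ℝ≥0) < 2)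
  have h := hC _ (.inl rfl) (2 ^ nR j) Nat.one_le_two_pow
  have l : (2 ^ nR j : ℕ) * Palm (QQ nR) {ω | 2 ^ nR j ≤ gap (1, 0) ω} / (E : ℝ≥0∞) ≤
      (C : ℝ≥0∞) / (2 ^ nR j : ℕ) := by
    refine le_trans ?_ h
    rw [show {ω | 2 ^ nR j ≤ gap (1, 0) ω} = ⋃ k : ℕ, {ω | 2 ^ nR j ≤ k ∧ gap (1, 0) ω = k} by ext; simp,
      hE, div_eq_mul_inv]
    refine (mul_le_mul_left (mul_le_mul_right (measure_iUnion_le _) _) _).trans ?_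
    rw [← ENNReal.tsum_mul_left, ← ENNReal.tsum_mul_right]
    refine ENNReal.tsum_le_tsum fun k => ?_
    split_ifs with k1
    · simp only [k1, true_and, div_eq_mul_inv]
      gcongr
    · simp [k1]
  have t := (ENNReal.div_le_div_right (mul_le_mul_right (tail nR_n j) _) _).trans l
  obtain ⟨a, ha⟩ := Nat.exists_eq_add_of_le (nR_g j)
  rcases eq_or_ne E 0 with rfl | E0
  · rw [ENNReal.coe_zero, ENNReal.div_zero (by simp [ENNReal.div_eq_zero_iff]), top_le_iff,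
      ENNReal.div_eq_top] at t
    simp at t
  have t' := ENNReal.toReal_mono (ENNReal.div_ne_top (by simp) (by simp)) t
  have hj' : 2 * ((C : ℝ) * E) < 2 ^ j := by exact_mod_cast hj
  have E1 : (0 : ℝ) < E := by positivity
  simp only [ENNReal.toReal_div, ENNReal.toReal_mul, ENNReal.toReal_inv, ENNReal.toReal_pow,
    ENNReal.coe_toReal, ENNReal.toReal_ofNat, Nat.cast_pow, Nat.cast_ofNat] at t'
  rw [div_le_div_iff₀ E1 (by positivity), show (2 : ℝ) ^ nR j * ((2 ^ (nR j + j + 2))⁻¹ / 2) * 2 ^ nR j =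
    2 ^ j * 2 ^ a / 2 by rw [ha]; field_simp; ring] at t'
  nlinarith [(one_le_pow₀ one_le_two : (1 : ℝ) ≤ 2 ^ a), (by positivity : (0 : ℝ) < 2 ^ j)]

end Pool.Agent.Results.MP_01c081_pr.Yes
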